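import Pool.Agent.helper70.LZ.SpecZ

/-! Row ZL1 of project LE, block BOUND-Z (MP_baa4d7_al): Brauer's lemma. -/

set_option autoImplicit false

namespace Pool.Agent.LE

open Pool.Agent.helper58.DC Pool.Agent.DI Pool.Agent.GR Pool.Agent.OB Pool.Agent.DR Pool.Agent.FI Pool.Agent.FI3 Pool.Agent.FI4

open Classical in
/-- the mean over a subgroup, as an element of the group algebra -/
noncomputable def ZL1_i {G : Type} [Group G] (S : Subgroup G) : G → ℂ :=
  fun g => if g ∈ S then (Nat.card S : ℂ)⁻¹ else 0

theorem ZL1_cv {G : Type} [Group G] [Finite G] (S : Subgroup G) : cv (ZL1_i S) (ZL1_i S) = ZL1_i S := by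
  classical
  letI := Fintype.ofFinite G
  funext g
  unfold cv
  rw [finsum_eq_sum_of_fintype]
  have h1 : ∀ x : G, ZL1_i S x * ZL1_i S (x⁻¹ * g) = if x ∈ S then (Nat.card S : ℂ)⁻¹ * ZL1_i S g else 0 := by
    intro x
    unfold ZL1_i
    by_cases hx : x ∈ S
    · have h2 : x⁻¹ * g ∈ S ↔ g ∈ S := S.mul_mem_cancel_left (S.inv_mem hx)
      simp only [hx, if_true, h2]
    · simp only [hx, if_false, zero_mul]
  simp only [h1]
  rw [← Finset.sum_filter, Finset.sum_const, nsmul_eq_mul]
  have h3 : (Finset.univ.filter fun x : G => x ∈ S).card = Nat.card S := by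
    rw [Nat.card_eq_fintype_card, Fintype.card_subtype]
  rw [h3, ← mul_assoc, mul_inv_cancel₀ (Nat.cast_ne_zero.mpr Nat.card_pos.ne'), one_mul]

theorem ZL1_eS (hIDM : IDM_stmt) (hEXP : EXP_stmt) (hB2 : B2_stmt) (G : Type) [Group G] [Finite G] (K : Subgroup G) :
    eS K (IrrOn K) = (Pool.Agent.GR.dl : G → ℂ) := by
  classical
  letI := Fintype.ofFinite G
  obtain ⟨h1, h2, _, _⟩ := hIDM G K (IrrOn K) (fun _ h => h)
  have hcf : CF K (Pool.Agent.GR.dl : G → ℂ) := by
    constructor
    · intro h _ x
      unfold Pool.Agent.GR.dl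
      by_cases hx : x = 1
      · rw [hx, mul_one, mul_inv_cancel]
      · rw [if_neg hx, if_neg]
        intro he
        exact hx (conj_eq_one_iff.mp he)
    · intro x hx
      unfold Pool.Agent.GR.dl
      rw [if_neg]
      rintro rfl
      exact hx K.one_mem
  have hsub : CF K (eS K (IrrOn K) - (Pool.Agent.GR.dl : G → ℂ)) := by
    constructor
    · intro h hh x
      rw [Pi.sub_apply, Pi.sub_apply, h1.1 h hh, hcf.1 h hh]
    · intro x hx
      rw [Pi.sub_apply, h1.2 x hx, hcf.2 x hx, sub_zero]
  have h0 := hEXP G K _ hsub (by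
    intro ψ hψ
    have e1 : cc ψ (eS K (IrrOn K)) = 1 := by rw [h2 ψ hψ, if_pos hψ]
    have e2 : cc ψ (Pool.Agent.GR.dl : G → ℂ) = 1 := by
      unfold cc
      rw [finsum_eq_sum_of_fintype]
      have e3 : ∑ x : G, Pool.Agent.GR.dl x * ψ x = ψ 1 := by
        rw [Finset.sum_eq_single (1 : G)]
        · unfold Pool.Agent.GR.dl
          rw [if_pos rfl, one_mul]
        · intro b _ hb
          unfold Pool.Agent.GR.dl
          rw [if_neg hb, zero_mul]
        · intro hn
          exact absurd (Finset.mem_univ _) hn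
      rw [e3]
      obtain ⟨n, hn, hn1, _⟩ := ((hB2 G K).2 ψ hψ).1
      rw [hn1]
      exact div_self (Nat.cast_ne_zero.mpr hn.ne')
    have e4 : cc ψ (eS K (IrrOn K) - (Pool.Agent.GR.dl : G → ℂ)) =
        cc ψ (eS K (IrrOn K)) - cc ψ (Pool.Agent.GR.dl : G → ℂ) := by
      unfold cc
      rw [finsum_eq_sum_of_fintype, finsum_eq_sum_of_fintype, finsum_eq_sum_of_fintype, ← sub_div,
        ← Finset.sum_sub_distrib]
      congr 1
      refine Finset.sum_congr rfl fun x _ => ?_
      rw [Pi.sub_apply, sub_mul]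
    rw [e4, e1, e2, sub_self])
  exact sub_eq_zero.mp h0

/-- a Sylow subgroup of the centraliser of `x` in `K` -/
theorem ZL1_syl {q : ℕ} (hq : q.Prime) {G : Type} [Group G] [Finite G] (C : Subgroup G) :
    ∃ (S : Subgroup G) (n : ℕ), S ≤ C ∧ ¬ q ∣ n ∧ Nat.card C = n * Nat.card S ∧ ∀ s ∈ S, PEl q s := by
  haveI : Fact q.Prime := ⟨hq⟩
  obtain ⟨P⟩ : Nonempty (Sylow q C) := inferInstance
  refine ⟨(P : Subgroup C).map C.subtype, (P : Subgroup C).index, Subgroup.map_subtype_le _, P.not_dvd_index, ?_, ?_⟩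
  · rw [Subgroup.card_map_of_injective C.subtype_injective, mul_comm, Subgroup.card_mul_index]
  · rintro s ⟨t, ht, rfl⟩
    obtain ⟨k, hk⟩ := P.isPGroup' ⟨t, ht⟩
    refine ⟨k, ?_⟩
    have h1 : t ^ q ^ k = 1 := by
      have := congrArg Subtype.val hk
      exact this
    rw [← map_pow, h1, map_one]

theorem ZL1 (hQEV : QEV_stmt) (hIDM : IDM_stmt) (hEXP : EXP_stmt) (hB2 : B2_stmt) (hSTC : STC_stmt) : ZL1_stmt := by
  intro q hq G _ _ K x hx hqx
  classical
  letI := Fintype.ofFinite G
  obtain ⟨S, n, hSC, hqn, hcard, hel⟩ := ZL1_syl hq (Cz K x)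
  have hSK : ∀ s ∈ S, s ∈ K := fun s hs => (hSC hs).1
  have hSx : ∀ s ∈ S, s * x = x * s := by
    intro s hs
    have h1 : s ∈ Subgroup.centralizer {x} := (Subgroup.mem_inf.mp (hSC hs)).2
    rw [Subgroup.mem_centralizer_iff] at h1
    exact (h1 x (Set.mem_singleton x)).symm
  have hiK : ∀ y, y ∉ K → ZL1_i S y = 0 := by
    intro y hy
    unfold ZL1_i
    rw [if_neg]
    exact fun h => hy (hSK y h)
  have hinv : Inv (Subgroup.zpowers x) (ZL1_i S) := by
    rintro s ⟨k, rfl⟩ y
    have hcomm : ∀ y ∈ S, (x ^ k) * y * (x ^ k)⁻¹ = y := by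
      intro y hy
      have h1 : Commute x y := (hSx y hy).symm
      have h2 : Commute (x ^ k) y := h1.zpow_left k
      rw [h2.eq, mul_inv_cancel_right]
    unfold ZL1_i
    have hiff : (x ^ k) * y * (x ^ k)⁻¹ ∈ S ↔ y ∈ S := by
      constructor
      · intro h
        have h1 := hcomm _ h
        have h2 : (x ^ k) * y * (x ^ k)⁻¹ = y := by
          have h3 := congrArg (fun z => (x ^ k)⁻¹ * z * (x ^ k)) h1
          simp only [mul_assoc, inv_mul_cancel_left, inv_mul_cancel, mul_one] at h3
          rw [← mul_assoc] at h3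
          exact h3
        rw [← h2]
        exact h
      · intro h
        rw [hcomm y h]
        exact h
    show (if (x ^ k) * y * (x ^ k)⁻¹ ∈ S then _ else _) = _
    simp only [hiff]
  have hcv := ZL1_cv S
  have hzx : Subgroup.zpowers x ≤ K := by
    rw [Subgroup.zpowers_le]
    exact hx
  have hfin := (hB2 G K).1
  -- the coefficients
  refine ⟨fun η => if η ∈ IrrOn K then ev η (ZL1_i S) x⁻¹ else 0, n, hqn, ?_, ?_⟩
  · intro η
    by_cases hη : η ∈ IrrOn K
    · simp only [hη, if_true]
      obtain ⟨m, hm⟩ := hQEV G K (Subgroup.zpowers x) hzx (ZL1_i S) hiK hcv hinv η hη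
      rw [hm x⁻¹ (Subgroup.inv_mem _ (Subgroup.mem_zpowers x))]
      refine finsum_mem_induction (fun z => IsIntegral ℤ z) isIntegral_zero (fun a b ha hb => ha.add hb) ?_
      intro ψ hψ
      exact (isIntegral_algebraMap (R := ℤ) (A := ℂ) (x := (m ψ : ℤ))).mul (((hB2 G (Subgroup.zpowers x)).2 ψ hψ).2.2.1 _)
    · simp only [hη, if_false]
      exact isIntegral_zero
  · -- the formula for the sum
    have hT : ∀ y ∈ K, ∑ᶠ η ∈ IrrOn K, (if η ∈ IrrOn K then ev η (ZL1_i S) x⁻¹ else 0) * η y =
        ∑ g : G, ZL1_i S g * ∑ z : G, if z ∈ K ∧ z⁻¹ * y * z = g⁻¹ * x then (1 : ℂ) else 0 := by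
      intro y hy
      rw [finsum_mem_eq_finite_toFinset_sum _ hfin]
      have e1 : ∀ η ∈ hfin.toFinset, (if η ∈ IrrOn K then ev η (ZL1_i S) x⁻¹ else 0) * η y =
          ∑ g : G, ZL1_i S g * (η y * η (g⁻¹ * x)⁻¹) := by
        intro η hη
        rw [if_pos (hfin.mem_toFinset.mp hη)]
        unfold ev
        rw [finsum_eq_sum_of_fintype, Finset.sum_mul]
        refine Finset.sum_congr rfl fun g _ => ?_
        rw [mul_inv_rev, inv_inv]
        ring
      rw [Finset.sum_congr rfl e1, Finset.sum_comm]
      refine Finset.sum_congr rfl fun g _ => ?_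
      rw [← Finset.mul_sum]
      by_cases hg : g ∈ S
      · congr 1
        have hgK : g⁻¹ * x ∈ K := K.mul_mem (K.inv_mem (hSK g hg)) hx
        have e2 : ∑ η ∈ hfin.toFinset, η y * η (g⁻¹ * x)⁻¹ = Sf (IrrOn K) y (g⁻¹ * x) := by
          unfold Sf
          rw [finsum_mem_eq_finite_toFinset_sum _ hfin]
        obtain ⟨_, _, _, h4⟩ := hIDM G K (IrrOn K) (fun _ h => h)
        rw [e2, ← h4 y hy _ hgK, ZL1_eS hIDM hEXP hB2 G K, finsum_mem_def, finsum_eq_sum_of_fintype]
        refine Finset.sum_congr rfl fun z _ => ?_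
        rw [Set.indicator_apply]
        unfold Pool.Agent.GR.dl
        have hiff : z⁻¹ * y⁻¹ * z * (g⁻¹ * x) = 1 ↔ z⁻¹ * y * z = g⁻¹ * x := by
          rw [mul_eq_one_iff_eq_inv]
          constructor
          · intro h
            have h5 := congrArg (fun w => w⁻¹) h
            simp only [mul_inv_rev, inv_inv] at h5
            rw [mul_assoc, h5]
          · intro h
            rw [← h]
            simp only [mul_inv_rev, inv_inv, mul_assoc]
        by_cases hz : z ∈ K
        · have hz' : z ∈ (K : Set G) := hz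
          simp only [hz', hz, if_true, true_and, hiff]
        · have hz' : z ∉ (K : Set G) := hz
          simp only [hz', hz, if_false, false_and]
      · have h0 : ZL1_i S g = 0 := by
          unfold ZL1_i
          rw [if_neg hg]
        rw [h0, zero_mul, zero_mul]
    constructor
    · rw [hT x hx]
      rw [Finset.sum_eq_single (1 : G)]
      · have e1 : ∑ z : G, (if z ∈ K ∧ z⁻¹ * x * z = (1 : G)⁻¹ * x then (1 : ℂ) else 0) = Nat.card (Cz K x) := by
          rw [← Finset.sum_filter, Finset.sum_const, nsmul_eq_mul, mul_one, Nat.card_eq_fintype_card,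
            Fintype.card_subtype]
          congr 2
          ext z
          simp only [Finset.mem_filter, Finset.mem_univ, true_and]
          unfold Cz
          rw [Subgroup.mem_inf, Subgroup.mem_centralizer_iff]
          refine and_congr_right fun _ => ?_
          rw [inv_one, one_mul]
          constructor
          · intro h h' hh'
            rw [Set.mem_singleton_iff.mp hh']
            have h5 := congrArg (fun w => z * w) h
            simp only [mul_assoc, mul_inv_cancel_left] at h5
            exact h5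
          · intro h
            have h5 := h x (Set.mem_singleton x)
            rw [mul_assoc, h5, inv_mul_cancel_left]
        rw [e1, hcard]
        unfold ZL1_i
        rw [if_pos S.one_mem]
        push_cast
        have h6 : (Nat.card S : ℂ) ≠ 0 := Nat.cast_ne_zero.mpr Nat.card_pos.ne'
        field_simp
      · intro g _ hg
        by_cases hgS : g ∈ S
        · have e2 : ∑ z : G, (if z ∈ K ∧ z⁻¹ * x * z = g⁻¹ * x then (1 : ℂ) else 0) = 0 := by
            refine Finset.sum_eq_zero fun z _ => ?_
            rw [if_neg]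
            rintro ⟨_, h⟩
            apply hg
            have hgi : g⁻¹ ∈ S := S.inv_mem hgS
            have hcom : Commute g⁻¹ x := hSx _ hgi
            obtain ⟨k, hk⟩ := hel _ hgi
            have hdvd : orderOf g⁻¹ ∣ q ^ k := orderOf_dvd_of_pow_eq_one hk
            have hcop : (orderOf g⁻¹).Coprime (orderOf x) := by
              refine Nat.Coprime.coprime_dvd_left hdvd ?_
              exact Nat.Coprime.pow_left k ((Nat.Prime.coprime_iff_not_dvd hq).mpr hqx)
            have h7 := hcom.orderOf_mul_eq_mul_orderOf_of_coprime hcop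
            have h8 : orderOf (z⁻¹ * x * z) = orderOf x := by
              have h9 := MulEquiv.orderOf_eq (MulAut.conj z⁻¹) x
              rw [MulAut.conj_apply, inv_inv] at h9
              exact h9
            rw [h] at h8
            rw [h7] at h8
            have h10 : 0 < orderOf x := orderOf_pos x
            have h11 : orderOf g⁻¹ = 1 := by
              have h12 : orderOf g⁻¹ * orderOf x = 1 * orderOf x := by rw [h8, one_mul]
              exact Nat.eq_of_mul_eq_mul_right h10 h12
            rw [orderOf_eq_one_iff] at h11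
            exact inv_eq_one.mp h11
          rw [e2, mul_zero]
        · unfold ZL1_i
          rw [if_neg hgS, zero_mul]
      · intro hn
        exact absurd (Finset.mem_univ _) hn
    · intro y hy hne
      rw [hT y hy] at hne
      obtain ⟨g, _, hg⟩ := Finset.exists_ne_zero_of_sum_ne_zero hne
      have hgS : g ∈ S := by
        by_contra h
        apply hg
        unfold ZL1_i
        rw [if_neg h, zero_mul]
      have hg2 : ∑ z : G, (if z ∈ K ∧ z⁻¹ * y * z = g⁻¹ * x then (1 : ℂ) else 0) ≠ 0 := fun h => hg (by rw [h, mul_zero])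
      obtain ⟨z, _, hz⟩ := Finset.exists_ne_zero_of_sum_ne_zero hg2
      have hz2 : z ∈ K ∧ z⁻¹ * y * z = g⁻¹ * x := by
        by_contra h
        exact hz (if_neg h)
      refine ⟨z⁻¹, K.inv_mem hz2.1, g⁻¹, K.inv_mem (hSK g hgS), hel _ (S.inv_mem hgS), hSx _ (S.inv_mem hgS), ?_⟩
      rw [inv_inv, hz2.2, hSx _ (S.inv_mem hgS)]

end Pool.Agent.LE
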