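import Pool.Agent.helper70.LZ.SpecW

/-!
# Project LE, theorem NA, block BOUND-ZN (MP_baa4d7_al), row WPL (port of helper27/LZ/ZPL.lean)
-/

set_option autoImplicit false

namespace Pool.Agent.LE

open Pool.Agent.helper58.DC Pool.Agent.DI Pool.Agent.GR Pool.Agent.OB Pool.Agent.DR Pool.Agent.FI Pool.Agent.FI3 Pool.Agent.FI4

theorem WPL (hZAX : ZAX_stmt) (hWZ5 : WZ5_stmt) (hQRS : QRS_stmt) (hQCE : QCE_stmt) : WPL_stmt := by
  classical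
  intro p M hM G _ _ z y hy η₀ hη₀ hnot ψ hψ n hn hzn ζ hζ
  have : NeZero n := ⟨hn.ne'⟩
  have hzK : z ∈ Cz (⊤ : Subgroup G) z := mem_Cz.2 ⟨Subgroup.mem_top z, rfl⟩
  have hcen : Cen (Cz (⊤ : Subgroup G) z) z := fun l hl => ((mem_Cz.1 hl).2).symm
  have hcens : ∀ s : ℕ, Cen (Cz (⊤ : Subgroup G) z) (z ^ s) := by
    intro s l hl
    have h1 : Commute z l := (mem_Cz.1 hl).2
    exact (h1.pow_left s).symm
  have hpow : ∀ φ ∈ IrrOn (Cz (⊤ : Subgroup G) z), ∀ s : ℕ, φ (z ^ s) / φ 1 = (φ z / φ 1) ^ s := by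
    intro φ hφ s
    have h0 : φ 1 ≠ 0 := IrrOn_ne hφ
    induction s with
    | zero => rw [pow_zero, pow_zero, div_self h0]
    | succ s ih =>
      have h1 := (hQCE G (Cz (⊤ : Subgroup G) z) z hzK hcen φ hφ).1 (z ^ s)
      rw [pow_succ' (φ z / φ 1), ← ih, pow_succ' z, div_mul_div_comm, ← h1, mul_div_mul_right _ _ h0]
  have hroot : ∀ φ ∈ IrrOn (Cz (⊤ : Subgroup G) z), ∃ e : ℕ, φ z / φ 1 = ζ ^ e := by
    intro φ hφ
    have h1 := hpow φ hφ n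
    rw [hzn, div_self (IrrOn_ne hφ)] at h1
    obtain ⟨i, -, hi⟩ := hζ.eq_pow_of_pow_eq_one h1.symm
    exact ⟨i, hi.symm⟩
  have hη₀' : η₀ ∈ Bl M (Cz (⊤ : Subgroup G) z) η₀ := ⟨hη₀, SB.refl _ _⟩
  have hr : ∀ φ ∈ Bl M (Cz (⊤ : Subgroup G) z) η₀, ∃ r : ℤ,
      (pp p (Cz (Cz (⊤ : Subgroup G) z) y) : ℂ) * EE p (Cz (⊤ : Subgroup G) z) φ η₀ = (r : ℂ) := by
    intro φ hφ
    refine hWZ5 p M hM G (Cz (⊤ : Subgroup G) z) y hy φ hφ.1 ?_ η₀ hη₀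
    intro hin
    apply hnot
    have h1 := InM.of_mcong hM (hφ.2 (cls (Cz (⊤ : Subgroup G) z) y) (cls_CF hy) (cls_int _ y))
    have h2 := InM.sub hM hin h1
    rw [sub_sub_cancel] at h2
    exact h2
  have hm := (hQRS G ⊤ (Cz (⊤ : Subgroup G) z) le_top ψ hψ).1
  choose! e he using hroot
  choose! m hm using hm
  choose! r hr using hr
  have hfin : (Bl M (Cz (⊤ : Subgroup G) z) η₀).Finite := (IrrOn_fin (Cz (⊤ : Subgroup G) z)).subset fun φ h => h.1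
  refine ⟨∑ φ ∈ hfin.toFinset, Polynomial.C ((m φ : ℤ) * r φ) * Polynomial.X ^ (e φ), ?_⟩
  intro s
  rw [hZAX p M hM G _ η₀ η₀ hη₀' (z ^ s) (Subgroup.pow_mem _ hzK s) (hcens s) ψ hψ,
    finsum_mem_eq_finite_toFinset_sum _ hfin, map_sum, Finset.mul_sum]
  refine Finset.sum_congr rfl fun φ hφ => ?_
  have hφ0 : φ ∈ Bl M (Cz (⊤ : Subgroup G) z) η₀ := (Set.Finite.mem_toFinset hfin).1 hφ
  have hφ1 : φ ∈ IrrOn (Cz (⊤ : Subgroup G) z) := hφ0.1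
  rw [hpow φ hφ1 s, hm φ hφ1, he φ hφ1, map_mul, map_pow, Polynomial.aeval_C, Polynomial.aeval_X, ← pow_mul, ← pow_mul,
    mul_comm (e φ) s]
  have h1 := hr φ hφ0
  have h2 : (algebraMap ℤ ℂ) ((m φ : ℤ) * r φ) = (m φ : ℂ) * (r φ : ℂ) := by
    rw [map_mul]
    simp
  rw [h2, ← h1]
  ring

end Pool.Agent.LE
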